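import Pool.Agent.Lib.MP_c7af3c_ag.ELL.Model
import Pool.Agent.Lib.MP_c7af3c_ag.GEN.H38.Sproj
import Pool.Agent.Lib.MP_c7af3c_ag.MET.Y.SchLem

/-!
# MP_c7af3c_ag, project ELL: morphisms to closed subschemes of projective space
-/

set_option autoImplicit false

namespace Pool.Agent.Ell.H46

open AlgebraicGeometry CategoryTheory CategoryTheory.Limits HomogeneousLocalization
open MvPolynomial (homogeneousSubmodule)

/-- a morphism from a reduced scheme with image in a closed subscheme factors -/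
theorem exists_lift {Y Z E : Scheme.{0}} (i : Y ⟶ Z) [IsClosedImmersion i] (g : E ⟶ Z)
    [IsReduced E] (h : ∀ x : E, g x ∈ Set.range i) : ∃ g' : E ⟶ Y, g' ≫ i = g := by
  have hs : Surjective (pullback.fst g i) := by
    refine ⟨fun x => ?_⟩
    obtain ⟨y, hy⟩ := h x
    obtain ⟨z, hz, -⟩ := Scheme.Pullback.exists_preimage_pullback x y hy.symm
    exact ⟨z, hz⟩
  have : IsIso (pullback.fst g i) := isIso_of_isClosedImmersion_of_surjective _
  exact ⟨inv (pullback.fst g i) ≫ pullback.snd g i, by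
    rw [Category.assoc, ← pullback.condition, IsIso.inv_hom_id_assoc]⟩

/-- it is enough to know the images of the closed points -/
theorem range_of_closed {Y Z E : Scheme.{0}} (i : Y ⟶ Z) [IsClosedImmersion i] (g : E ⟶ Z)
    (k : Type) [Field k] [IsAlgClosed k] (s : E ⟶ Spec (CommRingCat.of k))
    [LocallyOfFiniteType s]
    (h : ∀ p : Spec (CommRingCat.of k) ⟶ E, p ≫ s = 𝟙 _ →
      (p ≫ g) (IsLocalRing.closedPoint k) ∈ Set.range i) (x : E) : g x ∈ Set.range i := by
  have : JacobsonSpace E := LocallyOfFiniteType.jacobsonSpace s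
  by_contra hx
  have hcl : IsClosed (g ⁻¹' (Set.range i)) :=
    i.isClosedEmbedding.isClosed_range.preimage g.continuous
  obtain ⟨z, hz1, hz2⟩ := nonempty_inter_closedPoints (Z := (g ⁻¹' (Set.range i))ᶜ) ⟨x, hx⟩
    hcl.isOpen_compl.isLocallyClosed
  have hz3 : IsClosed {z} := hz2
  have h1 := h (pointOfClosedPoint s z hz3) (pointOfClosedPoint_comp s z hz3)
  have h2 : (pointOfClosedPoint s z hz3 ≫ g) (IsLocalRing.closedPoint k) =
      g (pointOfClosedPoint s z hz3 (IsLocalRing.closedPoint k)) := rfl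
  have h3 : pointOfClosedPoint s z hz3 (IsLocalRing.closedPoint k) = z :=
    pointOfClosedPoint_apply s z hz3 _
  rw [h2, h3] at h1
  exact hz1 h1

section

attribute [local instance] MvPolynomial.gradedAlgebra

/-- the converse of `ProjFacts.zero` -/
theorem mem_of_eval (k : Type) [Field k] (n : ℕ) (j : Fin (n + 1))
    (P : Spec (CommRingCat.of k) ⟶ PP k n) (h : ⊤ ≤ P ⁻¹ᵁ DP k n j)
    (hP : P ≫ Gen.projStr k n = 𝟙 _) (d : ℕ) (F : MvPolynomial (Fin (n + 1)) k)
    (hF : F.IsHomogeneous d) (h0 : MvPolynomial.eval (Gen.pcoord k n j P h) F = 0)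
    (a : Spec (CommRingCat.of k)) : F ∈ (P.base a).asHomogeneousIdeal := by
  by_contra hcon
  obtain ⟨φ, h1, h2, h3⟩ := Gen.H38.exists_psi k n j P h
  have hFX : (F * MvPolynomial.X j).IsHomogeneous (d + 1) :=
    hF.mul (MvPolynomial.isHomogeneous_X k j)
  have h4 := Gen.H38.hom_fr k n j φ.hom (h3 hP) (F * MvPolynomial.X j) (d + 1) hFX
  have hmem : F * MvPolynomial.X j ∈ Gen.H38.gr k n (d + 1) :=
    (MvPolynomial.mem_homogeneousSubmodule _ _).mpr hFX
  have h6 := Proj.awayι_preimage_basicOpen (Gen.H38.gr k n) (Gen.H38.X_mem k n j) one_pos hmem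
    (Nat.succ_pos d)
  have hXj : (MvPolynomial.X j : MvPolynomial (Fin (n + 1)) k) ∉
      (P.base a).asHomogeneousIdeal := by
    have : P.base a ∈ DP k n j := h (TopologicalSpace.Opens.mem_top a)
    exact (Proj.mem_basicOpen _ _ _).1 this
  have h9 : P.base a ∈ Proj.basicOpen (Gen.H38.gr k n) (F * MvPolynomial.X j) := by
    rw [Proj.mem_basicOpen]
    intro hc
    rcases (P.base a).isPrime.mem_or_mem hc with hc | hc
    · exact hcon hc
    · exact hXj hc
  have h8 : Spec.map φ a ∈ Proj.awayι (Gen.H38.gr k n) (MvPolynomial.X j)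
      (Gen.H38.X_mem k n j) one_pos ⁻¹ᵁ
      Proj.basicOpen (Gen.H38.gr k n) (F * MvPolynomial.X j) := by
    rw [← h1] at h9
    exact h9
  rw [h6] at h8
  have h10 : Away.isLocalizationElem (Gen.H38.X_mem k n j) hmem =
      Gen.H38.fr k n j (F * MvPolynomial.X j) (d + 1) hFX := by
    unfold Gen.H38.fr
    simp only [Away.isLocalizationElem, pow_one]
  have h7 : PrimeSpectrum.comap φ.hom a ∈
      PrimeSpectrum.basicOpen (Away.isLocalizationElem (Gen.H38.X_mem k n j) hmem) := h8
  rw [h10, PrimeSpectrum.mem_basicOpen] at h7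
  apply h7
  change φ.hom _ ∈ a.asIdeal
  have h11 : Gen.pcoord k n j P h = fun l => φ.hom (Gen.H38.frX k n j l) := funext h2
  rw [h11] at h0
  have h12 : φ.hom (Gen.H38.fr k n j (F * MvPolynomial.X j) (d + 1) hFX) = 0 := by
    rw [h4, map_mul, h0, zero_mul]
  rw [h12]
  exact Ideal.zero_mem _

/-- the closed subsets of projective space are the zero loci of their forms -/
theorem mem_range_of_forms (k : Type) [Field k] (n : ℕ) {Y : Scheme.{0}} (i : Y ⟶ PP k n)
    [IsClosedImmersion i] (x : PP k n)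
    (h : ∀ g : MvPolynomial (Fin (n + 1)) k, (∃ e, g.IsHomogeneous e) →
      (∀ y : Y, g ∈ (i.base y).asHomogeneousIdeal) → g ∈ x.asHomogeneousIdeal) :
    x ∈ Set.range i := by
  have hcl : IsClosed (Set.range i) := i.isClosedEmbedding.isClosed_range
  obtain ⟨s, hs⟩ := (ProjectiveSpectrum.isClosed_iff_zeroLocus
    (homogeneousSubmodule (Fin (n + 1)) k) (Set.range i)).1 hcl
  refine (Set.ext_iff.1 hs x).2 ((ProjectiveSpectrum.mem_zeroLocus _ _ _).2 ?_)
  intro g hg
  have h1 : ∀ (z : PP k n), g ∈ z.asHomogeneousIdeal → ∀ e,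
      MvPolynomial.homogeneousComponent e g ∈ z.asHomogeneousIdeal := by
    intro z hz e
    have h2 := z.asHomogeneousIdeal.isHomogeneous e hz
    have h3 : ((DirectSum.decompose (homogeneousSubmodule (Fin (n + 1)) k) g) e :
        MvPolynomial (Fin (n + 1)) k) = MvPolynomial.homogeneousComponent e g :=
      MvPolynomial.decomposition.decompose'_apply g e
    rw [h3] at h2
    exact h2
  have h3 : ∀ e, MvPolynomial.homogeneousComponent e g ∈ x.asHomogeneousIdeal := by
    intro e
    refine h _ ⟨e, MvPolynomial.homogeneousComponent_isHomogeneous e g⟩ fun y => ?_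
    refine h1 _ ?_ e
    have h4 : i y ∈ ProjectiveSpectrum.zeroLocus (homogeneousSubmodule (Fin (n + 1)) k) s :=
      (Set.ext_iff.1 hs (i y)).1 ⟨y, rfl⟩
    exact (ProjectiveSpectrum.mem_zeroLocus _ _ _).1 h4 hg
  rw [← MvPolynomial.sum_homogeneousComponent g]
  exact Ideal.sum_mem _ fun e _ => h3 e

end

end Pool.Agent.Ell.H46
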