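import Pool.Agent.Lib.MP_c7af3c_ag.ELL.H46.Tau

/-!
# MP_c7af3c_ag, project ELL, module GRP
-/

set_option autoImplicit false

namespace Pool.Agent.Ell.H46

open AlgebraicGeometry CategoryTheory CategoryTheory.Limits MonoidalCategory
  CartesianMonoidalCategory MonObj

theorem grp (hI : InteStatement) (hP : PropStatement) (hG : GredStatement)
    (hExt : ExtkStatement) (hPts : PtsStatement) (hMul : MulStatement)
    (hInv : InvStatement) : GrpStatement := by
  intro k _ _ _
  classical
  obtain ⟨hbij, -, -⟩ := hPts k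
  have hint := (hI k).1
  have hlft : LocallyOfFiniteType (EE k).hom := (hI k).2.1
  have hprop : IsProper (EE k).hom := hP k
  have hsep : IsSeparated (EE k).hom := inferInstance
  have hredE : IsReduced (EE k).left := inferInstanceAs (IsReduced (El k))
  have hred2 : IsReduced (EE k ⊗ EE k).left := (hG k).1
  have hred3 : IsReduced ((EE k ⊗ EE k) ⊗ EE k).left := (hG k).2
  have hlft2 : LocallyOfFiniteType (EE k ⊗ EE k).hom := by
    change LocallyOfFiniteType (pullback.fst (EE k).hom (EE k).hom ≫ (EE k).hom)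
    infer_instance
  have hlft3 : LocallyOfFiniteType ((EE k ⊗ EE k) ⊗ EE k).hom := by
    change LocallyOfFiniteType (pullback.fst (EE k ⊗ EE k).hom (EE k).hom ≫ (EE k ⊗ EE k).hom)
    infer_instance
  obtain ⟨m, hm⟩ := hMul k
  obtain ⟨i, hi⟩ := hInv k
  have hsur : ∀ p : PT k ⟶ EE k, ∃ P, ptE P = p := hbij.2
  let e : 𝟙_ (Over (Spec (CommRingCat.of k))) ⟶ EE k := ptE 0
  have htu : ∀ (X : Over (Spec (CommRingCat.of k))) (p : PT k ⟶ X),
      p ≫ toUnit X = 𝟙 (𝟙_ (Over (Spec (CommRingCat.of k)))) := fun X p => toUnit_unique _ _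
  refine ⟨{ one := e, mul := m, inv := i, one_mul := ?_, mul_one := ?_, mul_assoc := ?_,
            left_inv := ?_, right_inv := ?_ }⟩
  · rw [← cancel_epi (λ_ (EE k)).inv, Iso.inv_hom_id]
    refine hExt k _ _ _ _ fun p => ?_
    obtain ⟨P, rfl⟩ := hsur p
    have h1 : ptE P ≫ (λ_ (EE k)).inv ≫ e ▷ EE k = lift (ptE 0) (ptE P) := by
      apply CartesianMonoidalCategory.hom_ext
      · simp only [Category.assoc, whiskerRight_fst, lift_fst]
        rw [← Category.assoc, ← Category.assoc]
        have : (ptE P ≫ (λ_ (EE k)).inv) ≫ fst _ _ =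
            𝟙 (𝟙_ (Over (Spec (CommRingCat.of k)))) := toUnit_unique _ _
        rw [this]
        exact Category.id_comp _
      · simp
    have h2 : ptE P ≫ (λ_ (EE k)).inv ≫ e ▷ EE k ≫ m =
        (ptE P ≫ (λ_ (EE k)).inv ≫ e ▷ EE k) ≫ m := by simp only [Category.assoc]
    rw [h2, h1, hm, zero_add, Category.comp_id]
  · rw [← cancel_epi (ρ_ (EE k)).inv, Iso.inv_hom_id]
    refine hExt k _ _ _ _ fun p => ?_
    obtain ⟨P, rfl⟩ := hsur p
    have h1 : ptE P ≫ (ρ_ (EE k)).inv ≫ EE k ◁ e = lift (ptE P) (ptE 0) := by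
      apply CartesianMonoidalCategory.hom_ext
      · simp
      · simp only [Category.assoc, whiskerLeft_snd, lift_snd]
        rw [← Category.assoc, ← Category.assoc]
        have : (ptE P ≫ (ρ_ (EE k)).inv) ≫ snd _ _ =
            𝟙 (𝟙_ (Over (Spec (CommRingCat.of k)))) := toUnit_unique _ _
        rw [this]
        exact Category.id_comp _
    have h2 : ptE P ≫ (ρ_ (EE k)).inv ≫ EE k ◁ e ≫ m =
        (ptE P ≫ (ρ_ (EE k)).inv ≫ EE k ◁ e) ≫ m := by simp only [Category.assoc]
    rw [h2, h1, hm, add_zero, Category.comp_id]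
  · refine hExt k _ _ _ _ fun p => ?_
    obtain ⟨P, hP1⟩ := hsur (p ≫ fst _ _ ≫ fst _ _)
    obtain ⟨Q, hQ1⟩ := hsur (p ≫ fst _ _ ≫ snd _ _)
    obtain ⟨R, hR1⟩ := hsur (p ≫ snd _ _)
    have h1 : p ≫ m ▷ EE k = lift (ptE (P + Q)) (ptE R) := by
      apply CartesianMonoidalCategory.hom_ext
      · have h2 : p ≫ fst _ _ = lift (ptE P) (ptE Q) := by
          apply CartesianMonoidalCategory.hom_ext
          · simp [hP1]
          · simp [hQ1]
        simp only [Category.assoc, whiskerRight_fst, lift_fst]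
        rw [← Category.assoc, h2, hm]
      · simp [hR1]
    have h3 : p ≫ (α_ (EE k) (EE k) (EE k)).hom ≫ EE k ◁ m = lift (ptE P) (ptE (Q + R)) := by
      apply CartesianMonoidalCategory.hom_ext
      · simp [hP1]
      · have h2 : p ≫ (α_ (EE k) (EE k) (EE k)).hom ≫ snd _ _ = lift (ptE Q) (ptE R) := by
          apply CartesianMonoidalCategory.hom_ext
          · simp [hQ1]
          · simp [hR1]
        simp only [Category.assoc, whiskerLeft_snd, lift_snd]
        rw [← hm, ← h2]
        simp only [Category.assoc]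
    rw [← Category.assoc, h1, hm]
    have h4 : p ≫ (α_ (EE k) (EE k) (EE k)).hom ≫ EE k ◁ m ≫ m =
        (p ≫ (α_ (EE k) (EE k) (EE k)).hom ≫ EE k ◁ m) ≫ m := by
      simp only [Category.assoc]
    rw [h4, h3, hm, add_assoc]
  · refine hExt k _ _ _ _ fun p => ?_
    obtain ⟨P, rfl⟩ := hsur p
    rw [← Category.assoc, comp_lift, Category.comp_id, hi, hm, neg_add_cancel, ← Category.assoc,
      htu]
    exact (Category.id_comp _).symm
  · refine hExt k _ _ _ _ fun p => ?_
    obtain ⟨P, rfl⟩ := hsur p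
    rw [← Category.assoc, comp_lift, Category.comp_id, hi, hm, add_neg_cancel, ← Category.assoc,
      htu]
    exact (Category.id_comp _).symm

end Pool.Agent.Ell.H46
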