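import Pool.Agent.Lib.MP_c7af3c_ag.ELL.Iface

/-!
# MP_c7af3c_ag, project ELL, module MUL
-/

set_option autoImplicit false

namespace Pool.Agent.Ell.H46

open AlgebraicGeometry CategoryTheory CategoryTheory.Limits MonoidalCategory
  CartesianMonoidalCategory MonObj

theorem open_whiskerRight {S : Scheme.{0}} {X Y : Over S} (f : X ⟶ Y) (Z : Over S)
    [IsOpenImmersion f.left] : IsOpenImmersion (f ▷ Z).left := by
  have t : IsPullback (pullback.snd Y.hom Z.hom) (pullback.fst Y.hom Z.hom) Z.hom Y.hom :=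
    (IsPullback.of_hasPullback Y.hom Z.hom).flip
  have s : IsPullback ((f ▷ Z).left ≫ pullback.snd Y.hom Z.hom) (pullback.fst X.hom Z.hom)
      Z.hom (f.left ≫ Y.hom) := by
    rw [Over.whiskerRight_left_snd, Over.w]
    exact (IsPullback.of_hasPullback X.hom Z.hom).flip
  have h : IsPullback (f ▷ Z).left (pullback.fst X.hom Z.hom) (pullback.fst Y.hom Z.hom)
      f.left := IsPullback.of_right s (Over.whiskerRight_left_fst f) t
  exact MorphismProperty.of_isPullback (P := @IsOpenImmersion) h.flip inferInstance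

theorem open_whiskerLeft {S : Scheme.{0}} {X Y : Over S} (Z : Over S) (f : X ⟶ Y)
    [IsOpenImmersion f.left] : IsOpenImmersion (Z ◁ f).left := by
  have t : IsPullback (pullback.fst Z.hom Y.hom) (pullback.snd Z.hom Y.hom) Z.hom Y.hom :=
    IsPullback.of_hasPullback Z.hom Y.hom
  have s : IsPullback ((Z ◁ f).left ≫ pullback.fst Z.hom Y.hom) (pullback.snd Z.hom X.hom)
      Z.hom (f.left ≫ Y.hom) := by
    rw [Over.whiskerLeft_left_fst, Over.w]
    exact IsPullback.of_hasPullback Z.hom X.hom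
  have h : IsPullback (Z ◁ f).left (pullback.snd Z.hom X.hom) (pullback.snd Z.hom Y.hom)
      f.left := IsPullback.of_right s (Over.whiskerLeft_left_snd f) t
  exact MorphismProperty.of_isPullback (P := @IsOpenImmersion) h.flip inferInstance

theorem open_tensor {S : Scheme.{0}} {X Y X' Y' : Over S} (f : X ⟶ Y) (g : X' ⟶ Y')
    (hf : IsOpenImmersion f.left) (hg : IsOpenImmersion g.left) :
    IsOpenImmersion (f ⊗ₘ g).left := by
  rw [MonoidalCategory.tensorHom_def]
  have := open_whiskerRight f X'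
  have := open_whiskerLeft Y g
  change IsOpenImmersion ((f ▷ X').left ≫ (Y ◁ g).left)
  infer_instance

section

variable (k : Type) [Field k]

instance : IsOpenImmersion (J0 k).left := inferInstanceAs (IsOpenImmersion (j0 k))

instance : IsOpenImmersion (J1 k).left := inferInstanceAs (IsOpenImmersion (j1 k))

end

/-- an endomorphism which is invertible is an open immersion -/
theorem open_of_inv {S : Scheme.{0}} {X : Over S} (f g : X ⟶ X) (h : f ≫ g = 𝟙 X)
    (h' : g ≫ f = 𝟙 X) : IsOpenImmersion f.left := by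
  have : IsIso f := ⟨g, h, h'⟩
  have : IsIso f.left := inferInstanceAs (IsIso ((Over.forget S).map f))
  infer_instance

theorem hne (hAff : AffStatement) (k : Type) [Field k] [CharZero k] [DecidableEq k] :
    (aff 0 0 + aff 1 0 : (W k).Point) ≠ 0 := by
  obtain ⟨h1, e1⟩ := hAff k 0 0 (by simp [OnC])
  obtain ⟨h2, e2⟩ := hAff k 1 0 (by simp [OnC])
  rw [e1, e2, Ne, add_eq_zero_iff_eq_neg, WeierstrassCurve.Affine.Point.neg_some]
  intro h
  simp only [WeierstrassCurve.Affine.Point.some.injEq] at h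
  exact zero_ne_one h.1

theorem mul (hAff : AffStatement) (hI : InteStatement) (hP : PropStatement) (hG : GredStatement)
    (hExt : ExtkStatement) (hMor : MorStatement) (hPtc : PtcStatement) (hPts : PtsStatement)
    (hMulc : MulcStatement) (hTau : TauStatement) : MulStatement := by
  intro k _ _ _ _
  obtain ⟨hbij, hJ0, -⟩ := hPts k
  obtain ⟨U, u, f, hu, hval, hcov⟩ := hMulc k
  have hint := (hI k).1
  have hlft : LocallyOfFiniteType (EE k).hom := (hI k).2.1
  have hprop : IsProper (EE k).hom := hP k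
  have hsep : IsSeparated (EE k).hom := inferInstance
  have hred : IsReduced (EE k ⊗ EE k).left := (hG k).1
  have hredE : IsReduced (EE k).left := inferInstanceAs (IsReduced (El k))
  have hlft2 : LocallyOfFiniteType (EE k ⊗ EE k).hom := by
    change LocallyOfFiniteType (pullback.fst (EE k).hom (EE k).hom ≫ (EE k).hom)
    infer_instance
  choose τ hτ using fun R => hTau k R
  -- the group element of a point
  let G : (PT k ⟶ EE k) → (W k).Point := Function.surjInv hbij.2
  have hG1 : ∀ p, ptE (G p) = p := Function.surjInv_eq hbij.2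
  have hG2 : ∀ P, G (ptE P) = P := fun P => hbij.1 (hG1 _)
  -- the translations are isomorphisms
  have hτi : ∀ R, τ R ≫ τ (-R) = 𝟙 (EE k) := by
    intro R
    refine hExt k (EE k) (EE k) _ _ fun p => ?_
    rw [← hG1 p, ← Category.assoc, hτ, hτ, Category.comp_id]
    congr 1
    abel
  have hτo : ∀ R, IsOpenImmersion (τ R).left := fun R =>
    open_of_inv (τ R) (τ (-R)) (hτi R) (by
      have := hτi (-R)
      rwa [neg_neg] at this)
  have hmor := hMor k (EE k ⊗ EE k) (EE k) (Fin 2 × (W k).Point × (W k).Point)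
    (fun i => U i.1)
    (fun i => u i.1 ≫ (J0 k ⊗ₘ J0 k) ≫ (τ i.2.1 ⊗ₘ τ i.2.2))
    (fun i => by
      have h1 := hu i.1
      have h2 := open_tensor (J0 k) (J0 k) inferInstance inferInstance
      have h3 := open_tensor (τ i.2.1) (τ i.2.2) (hτo _) (hτo _)
      change IsOpenImmersion ((u i.1).left ≫ (J0 k ⊗ₘ J0 k).left ≫
        (τ i.2.1 ⊗ₘ τ i.2.2).left)
      infer_instance)
    (fun i => f i.1 ≫ J0 k ≫ τ (i.2.1 + i.2.2))
    (by
      intro p
      have e0 : OnC (0 : k) 0 := by simp [OnC]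
      have e1 : OnC (1 : k) 0 := by simp [OnC]
      obtain ⟨i, q, hq⟩ := hcov 0 0 e0 1 0 e1 (hne hAff k)
      refine ⟨(i, G (p ≫ fst _ _) - aff 0 0, G (p ≫ snd _ _) - aff 1 0), q, ?_⟩
      change q ≫ u i ≫ (J0 k ⊗ₘ J0 k) ≫ (τ _ ⊗ₘ τ _) = p
      rw [← Category.assoc, hq]
      apply CartesianMonoidalCategory.hom_ext
      · rw [lift_map_assoc, lift_map, lift_fst, hJ0, hτ]
        rw [add_sub_cancel, hG1]
      · rw [lift_map_assoc, lift_map, lift_snd, hJ0, hτ]
        rw [add_sub_cancel, hG1])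
    (fun p => ptE (G (p ≫ fst _ _) + G (p ≫ snd _ _)))
    (by
      rintro ⟨i, A, B⟩ q
      obtain ⟨a, b, h, h1⟩ := hPtc k (q ≫ u i ≫ fst _ _)
      obtain ⟨a', b', h', h2⟩ := hPtc k (q ≫ u i ≫ snd _ _)
      obtain ⟨e, g, h'', h3, h4⟩ := hval i q a b h a' b' h' h1 h2
      change q ≫ f i ≫ J0 k ≫ τ (A + B) =
        ptE (G ((q ≫ u i ≫ (J0 k ⊗ₘ J0 k) ≫ (τ A ⊗ₘ τ B)) ≫ fst _ _) +
          G ((q ≫ u i ≫ (J0 k ⊗ₘ J0 k) ≫ (τ A ⊗ₘ τ B)) ≫ snd _ _))
      have h5 : (q ≫ u i ≫ (J0 k ⊗ₘ J0 k) ≫ (τ A ⊗ₘ τ B)) ≫ fst _ _ = ptE (aff a b + A) := by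
        rw [← hτ, ← hJ0 a b h, ← h1]
        simp
      have h6 : (q ≫ u i ≫ (J0 k ⊗ₘ J0 k) ≫ (τ A ⊗ₘ τ B)) ≫ snd _ _ = ptE (aff a' b' + B) := by
        rw [← hτ, ← hJ0 a' b' h', ← h2]
        simp
      rw [h5, h6, hG2, hG2, ← Category.assoc, h3, ← Category.assoc, hJ0, hτ, ← h4]
      congr 1
      abel)
  obtain ⟨m, hm⟩ := hmor
  refine ⟨m, fun P Q => ?_⟩
  rw [hm, lift_fst, lift_snd, hG2, hG2]

end Pool.Agent.Ell.H46
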