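import Pool.Agent.Lib.MP_c7af3c_ag.ELL.H46.Lift

/-!
# MP_c7af3c_ag, project ELL, module NAH: a closed subscheme of projective space which contains a
line is not arithmetically hyperbolic
-/

set_option autoImplicit false

namespace Pool.Agent.Ell.H46

open AlgebraicGeometry CategoryTheory CategoryTheory.Limits
open MvPolynomial (homogeneousSubmodule)

theorem exists_subring {k : Type} [Field k] (S : Set k) (hS : S.Finite) :
    ∃ R : Subring k, Algebra.FiniteType ℤ R ∧ S ⊆ R := by
  let B : Subalgebra ℤ k := Algebra.adjoin ℤ S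
  have h1 : B.FG := Subalgebra.fg_def.2 ⟨S, hS, rfl⟩
  have h2 : Algebra.FiniteType ℤ B := B.fg_iff_finiteType.1 h1
  refine ⟨B.toSubring, ?_, Algebra.subset_adjoin⟩
  have h3 : Algebra.FiniteType ℤ B.toSubring := by
    convert! h2
  exact h3

section

attribute [local instance] MvPolynomial.gradedAlgebra

theorem nah (hPbc : PbcStatement) (hPft : PftStatement) (hSprd : SprdStatement)
    (hSect : SectStatement) : NahStatement := by
  classical
  intro k _ _ _ n Y i hi hiY a b hab hline hAH
  obtain ⟨S, hS, hSR⟩ := hSprd k n Y.left i hi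
  have ha : a ≠ 0 := by
    have := hab.ne_zero 0
    simpa using this
  obtain ⟨j, hj⟩ := Function.ne_iff.1 ha
  have hj : a j ≠ 0 := hj
  let a' : Fin (n + 1) → k := fun l => a l / a j
  let b' : Fin (n + 1) → k := fun l => b l - b j * a' l
  have ha'j : a' j = 1 := div_self hj
  have hb'j : b' j = 0 := by
    simp only [b', ha'j, mul_one, sub_self]
  have hb' : ∃ l, b' l ≠ 0 := by
    by_contra hcon
    push Not at hcon
    rw [LinearIndependent.pair_iff] at hab
    have h1 := (hab (b j / a j) (-1) (by
      funext l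
      have h2 := hcon l
      simp only [b', a'] at h2
      simp only [Pi.add_apply, Pi.smul_apply, smul_eq_mul, Pi.zero_apply]
      linear_combination -h2)).2
    exact one_ne_zero (neg_eq_zero.1 h1)
  obtain ⟨l0, hl0⟩ := hb'
  obtain ⟨R, hRft, hRS⟩ := exists_subring (S ∪ (Set.range a' ∪ Set.range b'))
    (hS.union ((Set.finite_range a').union (Set.finite_range b')))
  have hRa : ∀ l, a' l ∈ R := fun l => hRS (Or.inr (Or.inl ⟨l, rfl⟩))
  have hRb : ∀ l, b' l ∈ R := fun l => hRS (Or.inr (Or.inr ⟨l, rfl⟩))
  have H := hSR R (fun s hs => hRS (Or.inl hs))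
  have Hp := H.flip.paste_vert (hPbc R k R.subtype n)
  let M : Over (Spec (CommRingCat.of R)) :=
    Over.mk ((i ≫ prP R.subtype n).imageι ≫ strP R n)
  obtain ⟨h1, h2, h3⟩ := hPft R n
  -- the sections
  let v : ℕ → Fin (n + 1) → R := fun t l =>
    ⟨a' l + t * b' l, R.add_mem (hRa l) (R.mul_mem (natCast_mem R t) (hRb l))⟩
  have hv : ∀ t, v t j = 1 := by
    intro t
    apply Subtype.ext
    change a' j + t * b' j = 1
    rw [ha'j, hb'j, mul_zero, add_zero]
  choose s p hp hs hpp hsp hc using fun t => hSect k n R j (v t) (hv t)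
  have hfac : ∀ t, ∃ s' : Spec (CommRingCat.of R) ⟶ M.left,
      s' ≫ (i ≫ prP R.subtype n).imageι = s t := by
    intro t
    refine exists_lift (i ≫ prP R.subtype n).imageι (s t) fun x => ?_
    have hcl : IsClosed ((s t) ⁻¹' (Set.range (i ≫ prP R.subtype n).imageι)) :=
      (i ≫ prP R.subtype n).imageι.isClosedEmbedding.isClosed_range.preimage (s t).continuous
    -- the generic point
    set η : Spec (CommRingCat.of R) :=
      Spec.map (CommRingCat.ofHom R.subtype) (IsLocalRing.closedPoint k) with hη
    have hη0 : η.asIdeal = ⊥ := by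
      have h5 : η.asIdeal = Ideal.comap R.subtype (IsLocalRing.closedPoint k).asIdeal := rfl
      have h6 : (IsLocalRing.closedPoint k).asIdeal = ⊥ :=
        (IsLocalRing.isField_iff_maximalIdeal_eq.1 (Field.toIsField k))
      rw [h5, h6, ← RingHom.ker_eq_comap_bot]
      exact (RingHom.injective_iff_ker_eq_bot _).1 Subtype.val_injective
    have hηx : η ⤳ x := by
      have h7 : (⟨η.asIdeal, η.isPrime⟩ : PrimeSpectrum R) ≤ ⟨x.asIdeal, x.isPrime⟩ := by
        change η.asIdeal ≤ x.asIdeal
        rw [hη0]
        exact bot_le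
      exact (PrimeSpectrum.le_iff_specializes _ _).1 h7
    refine hηx.mem_closed hcl ?_
    change s t η ∈ Set.range (i ≫ prP R.subtype n).imageι
    -- the point of `Y`
    have hmem : (p t) (IsLocalRing.closedPoint k) ∈ Set.range i := by
      refine mem_range_of_forms k n i _ fun G hG hGY => ?_
      obtain ⟨e, he⟩ := hG
      have h8 := hline G ⟨e, he⟩ hGY ((1 - t * b j) / a j) t
      refine mem_of_eval k n j (p t) (hp t) (hpp t) e G he ?_ _
      rw [hc t]
      refine Eq.trans ?_ h8
      congr 1
      congr 1
      funext l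
      change a' l + t * b' l = _
      simp only [b', a']
      field_simp
      ring
    obtain ⟨y, hy⟩ := hmem
    have h9 : s t η = (prP R.subtype n) (i y) := by
      have h10 := congrArg (fun g : Spec (CommRingCat.of k) ⟶ PP R n =>
        g (IsLocalRing.closedPoint k)) (hsp t)
      rw [hy]
      exact h10
    rw [h9]
    refine ⟨(i ≫ prP R.subtype n).toImage y, ?_⟩
    have h11 := congrArg (fun g : Y.left ⟶ PP R n => g y)
      (Scheme.Hom.toImage_imageι (i ≫ prP R.subtype n))
    exact h11
  choose s' hs' using hfac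
  have hinj : Function.Injective s' := by
    intro t u htu
    have h5 : s t = s u := by rw [← hs' t, ← hs' u, htu]
    have h6 : p t = p u := by
      refine (hPbc R k R.subtype n).hom_ext ?_ ?_
      · rw [← hsp t, ← hsp u, h5]
      · exact (hpp t).trans (hpp u).symm
    have h7 : Gen.pcoord k n j (p t) (hp t) = Gen.pcoord k n j (p u) (hp u) := by
      have : ∀ (q : Spec (CommRingCat.of k) ⟶ PP k n) (hq : ⊤ ≤ q ⁻¹ᵁ DP k n j), p t = q →
          Gen.pcoord k n j (p t) (hp t) = Gen.pcoord k n j q hq := by
        intro q hq h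
        subst h
        rfl
      exact this _ _ h6
    rw [hc t, hc u] at h7
    have h8 := congrFun h7 l0
    change a' l0 + t * b' l0 = a' l0 + u * b' l0 at h8
    have h9 : (t : k) = u := mul_right_cancel₀ hl0 (add_left_cancel h8)
    exact_mod_cast h9
  have hfin := hAH R hRft M (by
      change IsSeparated ((i ≫ prP R.subtype n).imageι ≫ strP R n)
      infer_instance) (by
      change LocallyOfFiniteType ((i ≫ prP R.subtype n).imageι ≫ strP R n)
      infer_instance) (by
      change QuasiCompact ((i ≫ prP R.subtype n).imageι ≫ strP R n)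
      infer_instance) ⟨Hp.isoPullback.symm, by
        have h5 := Hp.isoPullback_inv_snd
        change Hp.isoPullback.inv ≫ Y.hom = _
        rw [← hiY]
        exact h5⟩
  refine Set.infinite_of_injective_forall_mem hinj (fun t => ?_) hfin
  change s' t ≫ (i ≫ prP R.subtype n).imageι ≫ strP R n = 𝟙 _
  rw [← Category.assoc, hs' t]
  exact hs t

end

end Pool.Agent.Ell.H46
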