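import Pool.Agent.Lib.MP_c7af3c_ag.ELL.H46.Lift

/-!
# MP_c7af3c_ag, project ELL, module NGL: a line in a closed subscheme of projective space
gives a nonconstant morphism from the elliptic curve
-/

set_option autoImplicit false

namespace Pool.Agent.Ell.H46

open AlgebraicGeometry CategoryTheory CategoryTheory.Limits
open MvPolynomial (homogeneousSubmodule)

section

attribute [local instance] MvPolynomial.gradedAlgebra

theorem ngl (hI : InteStatement) (hP : PropStatement) (hGrp : GrpStatement)
    (hLine : LineStatement) : NglStatement := by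
  intro k _ _ _ n Y i hi hiY a b hab hline hgl
  obtain ⟨gE⟩ := hGrp k
  obtain ⟨hint, hlft, -⟩ := hI k
  have hprop := hP k
  have hEint : AlgebraicGeometry.IsIntegral (EE k).left := hint
  have hElft : LocallyOfFiniteType (EE k).hom := hlft
  obtain ⟨g, ⟨P, Q, hPQ⟩, hg⟩ := hLine k n a b hab
  have hrange : ∀ x : (EE k).left, g.left x ∈ Set.range i := by
    refine range_of_closed i g.left k (EE k).hom fun p hp => ?_
    let p' : PT k ⟶ EE k := Over.homMk p hp
    set x : PP k n := (p ≫ g.left) (IsLocalRing.closedPoint k) with hx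
    obtain ⟨j, hj⟩ := (Gen.H38.projFacts k n).chart x
    have hsub : ⊤ ≤ (p' ≫ g).left ⁻¹ᵁ DP k n j := by
      intro z _
      have hz : z = IsLocalRing.closedPoint k :=
        @Subsingleton.elim (Spec (CommRingCat.of k)) _ _ _
      rw [hz]
      exact hj
    obtain ⟨s, t, hst⟩ := hg p' j hsub
    have hpt : (p' ≫ g).left ≫ Gen.projStr k n = 𝟙 _ := by
      have h1 := Over.w (p' ≫ g)
      exact h1
    refine mem_range_of_forms k n i x fun G hG hGY => ?_
    obtain ⟨e, he⟩ := hG
    have h2 := hline G ⟨e, he⟩ hGY s t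
    rw [← hst] at h2
    exact mem_of_eval k n j (p' ≫ g).left hsub hpt e G he h2 (IsLocalRing.closedPoint k)
  obtain ⟨g', hg'⟩ := exists_lift i g.left hrange
  have hg'Y : g' ≫ Y.hom = (EE k).hom := by
    rw [← hiY, ← Category.assoc, hg']
    exact Over.w g
  have hconst := hgl inferInstance (EE k) gE hEint hprop (Over.homMk g' hg'Y)
    (P.left (IsLocalRing.closedPoint k)) (Q.left (IsLocalRing.closedPoint k))
  apply hPQ
  apply Over.OverMorphism.ext
  have hlftP : LocallyOfFiniteType (Gen.projStr k n) := inferInstance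
  refine ext_of_apply_closedPoint_eq (Gen.projStr k n) (Over.w (P ≫ g)) (Over.w (Q ≫ g)) ?_
  have h3 : ∀ R : PT k ⟶ EE k, (R ≫ g).left (IsLocalRing.closedPoint k) =
      i (g' (R.left (IsLocalRing.closedPoint k))) := by
    intro R
    have h4 : (R ≫ g).left = R.left ≫ g' ≫ i := by
      rw [hg', Over.comp_left]
    rw [h4]
    rfl
  rw [h3, h3]
  exact congrArg i hconst

end

end Pool.Agent.Ell.H46
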