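import Pool.Agent.Lib.MP_c7af3c_ag.ELL.Model
import Pool.Agent.Lib.MP_c7af3c_ag.MET.Y.SchLem

/-!
# MP_c7af3c_ag, project ELL, module SPRD: a closed subscheme of projective space over a field is
the base change of its image in projective space over a large finitely generated subring
-/

set_option autoImplicit false

namespace Pool.Agent.Ell.H46

open AlgebraicGeometry CategoryTheory CategoryTheory.Limits HomogeneousLocalization
open MvPolynomial (homogeneousSubmodule)

section General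

variable {A B σ τ : Type} [CommRing A] [SetLike σ A] [AddSubgroupClass σ A]
  [CommRing B] [SetLike τ B] [AddSubgroupClass τ B]
  {𝒜 : ℕ → σ} {ℬ : ℕ → τ} [GradedRing 𝒜] [GradedRing ℬ]

/-- the section `x / s ^ m` -/
noncomputable def secG (𝒜 : ℕ → σ) [GradedRing 𝒜] (s : A) (hs : s ∈ 𝒜 1) (m : ℕ) (x : A)
    (hx : x ∈ 𝒜 (m • 1)) : Γ(Proj 𝒜, Proj.basicOpen 𝒜 s) :=
  (Proj.awayToSection 𝒜 s).hom (Away.mk 𝒜 hs m x hx)

theorem appLE_secG (f : GradedRingHom 𝒜 ℬ)
    (hf : HomogeneousIdeal.irrelevant ℬ ≤ (HomogeneousIdeal.irrelevant 𝒜).map f)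
    (s : A) (hs : s ∈ 𝒜 1) (s' : B) (hs' : s' ∈ ℬ 1) (h : f s = s')
    (e : Proj.basicOpen ℬ s' ≤ Proj.map f hf ⁻¹ᵁ Proj.basicOpen 𝒜 s) (m : ℕ) (x : A)
    (hx : x ∈ 𝒜 (m • 1)) (y : B) (hy : y ∈ ℬ (m • 1)) (hxy : f x = y) :
    ((Proj.map f hf).appLE (Proj.basicOpen 𝒜 s) (Proj.basicOpen ℬ s') e).hom
      (secG 𝒜 s hs m x hx) = secG ℬ s' hs' m y hy := by
  subst h
  subst hxy
  have h1 := congrArg (fun g => g.hom (Away.mk 𝒜 hs m x hx))
    (Proj.awayToSection_comp_appLE f hf hs)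
  refine Eq.trans h1 ?_
  change (Proj.awayToSection ℬ (f s)).hom ((Away.map f s) (Away.mk 𝒜 hs m x hx)) = _
  rw [Away.map_mk]
  rfl

theorem exists_secG (s : A) (hs : s ∈ 𝒜 1) (t : Γ(Proj 𝒜, Proj.basicOpen 𝒜 s)) :
    ∃ (m : ℕ) (x : A) (hx : x ∈ 𝒜 (m • 1)), t = secG 𝒜 s hs m x hx := by
  obtain ⟨b, hb⟩ : ∃ b, (Proj.awayToSection 𝒜 s).hom b = t := by
    refine ⟨(Proj.basicOpenIsoAway 𝒜 s hs one_pos).inv.hom t, ?_⟩
    have h1 := congrArg (fun g => g.hom t) (Proj.basicOpenIsoAway 𝒜 s hs one_pos).inv_hom_id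
    exact h1
  obtain ⟨m, x, hx, rfl⟩ := Away.mk_surjective 𝒜 hs b
  exact ⟨m, x, hx, hb.symm⟩

end General

section

attribute [local instance] MvPolynomial.gradedAlgebra

theorem gmap_X {A B : Type} [CommRing A] [CommRing B] (f : A →+* B) (n : ℕ) (j : Fin (n + 1)) :
    gmap f n (MvPolynomial.X j : MvPolynomial (Fin (n + 1)) A) =
      (MvPolynomial.X j : MvPolynomial (Fin (n + 1)) B) := MvPolynomial.map_X f j

theorem prP_pre {A B : Type} [CommRing A] [CommRing B] (f : A →+* B) (n : ℕ)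
    (j : Fin (n + 1)) : prP f n ⁻¹ᵁ DP A n j = DP B n j := by
  unfold prP
  rw [Proj.map_preimage_basicOpen, gmap_X]

theorem X_mem (A : Type) [CommRing A] (n : ℕ) (j : Fin (n + 1)) :
    (MvPolynomial.X j : MvPolynomial (Fin (n + 1)) A) ∈ homogeneousSubmodule (Fin (n + 1)) A 1 :=
  (MvPolynomial.mem_homogeneousSubmodule 1 _).2 (MvPolynomial.isHomogeneous_X A j)

theorem DP_affine (A : Type) [CommRing A] (n : ℕ) (j : Fin (n + 1)) :
    IsAffineOpen (DP A n j) :=
  Proj.isAffineOpen_basicOpen (homogeneousSubmodule (Fin (n + 1)) A) (MvPolynomial.X j)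
    (X_mem A n j) one_pos

theorem iSup_DP (A : Type) [CommRing A] (n : ℕ) : ⨆ j, DP A n j = ⊤ := by
  refine Proj.iSup_basicOpen_eq_top' (homogeneousSubmodule (Fin (n + 1)) A)
    (ι := Fin (n + 1)) (fun l => MvPolynomial.X l) (fun l => ⟨1, X_mem A n l⟩) ?_
  rw [eq_top_iff]
  intro F _
  induction F using MvPolynomial.induction_on with
  | C a =>
    have h2 : (MvPolynomial.C a : MvPolynomial (Fin (n + 1)) A) ∈
        homogeneousSubmodule (Fin (n + 1)) A 0 :=
      (MvPolynomial.mem_homogeneousSubmodule _ _).mpr (MvPolynomial.isHomogeneous_C _ a)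
    exact Subalgebra.algebraMap_mem
      (Algebra.adjoin (homogeneousSubmodule (Fin (n + 1)) A 0) (Set.range fun l : Fin (n + 1) =>
        (MvPolynomial.X l : MvPolynomial (Fin (n + 1)) A)))
      (⟨MvPolynomial.C a, h2⟩ : homogeneousSubmodule (Fin (n + 1)) A 0)
  | add p q hp hq => exact Subalgebra.add_mem _ (hp trivial) (hq trivial)
  | mul_X p l hp =>
    exact Subalgebra.mul_mem _ (hp trivial) (Algebra.subset_adjoin ⟨l, rfl⟩)

theorem prP_affine {A B : Type} [CommRing A] [CommRing B] (f : A →+* B) (n : ℕ) :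
    IsAffineHom (prP f n) := by
  refine isAffineHom_of_forall_exists_isAffineOpen _ fun x => ?_
  have h1 : x ∈ ⨆ j, DP A n j := by
    rw [iSup_DP]
    trivial
  obtain ⟨j, hj⟩ := TopologicalSpace.Opens.mem_iSup.1 h1
  refine ⟨DP A n j, hj, DP_affine A n j, ?_⟩
  rw [prP_pre]
  exact DP_affine B n j

/-- a polynomial with coefficients in a subring -/
theorem exists_lift_poly {k : Type} [Field k] {σ : Type} (R : Subring k)
    (g : MvPolynomial σ k) (m : ℕ) (hg : g.IsHomogeneous m)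
    (h : ∀ I, MvPolynomial.coeff I g ∈ R) :
    ∃ g' : MvPolynomial σ R, g'.IsHomogeneous m ∧ MvPolynomial.map R.subtype g' = g := by
  have h1 : g ∈ Set.range (MvPolynomial.map (σ := σ) R.subtype) := by
    rw [MvPolynomial.mem_range_map_iff_coeffs_subset]
    intro c hc
    obtain ⟨I, hI⟩ := MvPolynomial.mem_coeffs_iff.1 hc
    rw [hI.2]
    exact ⟨⟨_, h I⟩, rfl⟩
  obtain ⟨g', hg'⟩ := h1
  refine ⟨g', ?_, hg'⟩
  intro I hI
  refine hg ?_
  rw [← hg', MvPolynomial.coeff_map]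
  intro h0
  exact hI (Subtype.ext h0)

theorem mem_map_iff {X Y : Scheme.{0}} (f : X ⟶ Y) [IsAffineHom f] (I : X.IdealSheafData)
    (U : Y.affineOpens) (V : X.affineOpens) (hV : f ⁻¹ᵁ U = V) (s : Γ(Y, U)) :
    s ∈ (I.map f).ideal U ↔ (f.appLE U V hV.ge).hom s ∈ I.ideal V := by
  obtain ⟨V, hV'⟩ := V
  dsimp only at hV
  subst hV
  rw [Scheme.IdealSheafData.ideal_map_of_isAffineHom, Ideal.mem_comap]
  have h1 : f.appLE U (f ⁻¹ᵁ U) le_rfl = f.app U := Scheme.Hom.appLE_eq_app _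
  rw [h1]

theorem sprd : SprdStatement := by
  classical
  intro k _ n Y i hi
  have hlft : LocallyOfFiniteType (Gen.projStr k n) := inferInstance
  have hnoeth : IsLocallyNoetherian (PP k n) :=
    LocallyOfFiniteType.isLocallyNoetherian (Gen.projStr k n)
  have hfg : ∀ j : Fin (n + 1), ∃ s : Finset Γ(PP k n, DP k n j),
      Ideal.span (s : Set Γ(PP k n, DP k n j)) = i.ker.ideal ⟨DP k n j, DP_affine k n j⟩ := by
    intro j
    have h1 : IsNoetherianRing Γ(PP k n, DP k n j) :=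
      IsLocallyNoetherian.component_noetherian ⟨DP k n j, DP_affine k n j⟩
    exact (isNoetherianRing_iff_ideal_fg _).1 h1 _
  choose G hG using hfg
  choose m x hx hsec using fun (j : Fin (n + 1)) (t : Γ(PP k n, DP k n j)) =>
    exists_secG (𝒜 := homogeneousSubmodule (Fin (n + 1)) k) (MvPolynomial.X j) (X_mem k n j) t
  refine ⟨((Finset.univ.biUnion fun j => (G j).biUnion fun t =>
    (x j t).support.image fun I => MvPolynomial.coeff I (x j t) : Finset k) : Set k),
    Finset.finite_toSet _, fun R hR => ?_⟩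
  have hcoe : ∀ j, ∀ t ∈ G j, ∀ I, MvPolynomial.coeff I (x j t) ∈ R := by
    intro j t ht I
    by_cases h0 : MvPolynomial.coeff I (x j t) = 0
    · rw [h0]
      exact R.zero_mem
    · refine hR ?_
      rw [Finset.mem_coe, Finset.mem_biUnion]
      refine ⟨j, Finset.mem_univ _, ?_⟩
      rw [Finset.mem_biUnion]
      exact ⟨t, ht, Finset.mem_image.2 ⟨I, MvPolynomial.mem_support_iff.2 h0, rfl⟩⟩
  have haff := prP_affine R.subtype n
  refine isPullback_of_isClosedImmersion i (i ≫ prP R.subtype n).imageι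
    (i ≫ prP R.subtype n).toImage (prP R.subtype n)
    (Scheme.Hom.toImage_imageι _).symm ?_
  have h1 : (i ≫ prP R.subtype n).imageι.ker = i.ker.map (prP R.subtype n) := by
    rw [← Scheme.Hom.ker_comp]
    exact Scheme.IdealSheafData.ker_subschemeι _
  rw [h1]
  refine le_antisymm (Scheme.IdealSheafData.comap_map_le _ _) ?_
  refine Scheme.IdealSheafData.le_of_iSup_eq_top
    (fun j => ⟨DP k n j, DP_affine k n j⟩) (iSup_DP k n) fun j => ?_
  rw [← hG j, Ideal.span_le]
  intro t ht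
  obtain ⟨y, hy, hyx⟩ := exists_lift_poly R (x j t) (m j t)
    (by
      have := hx j t
      rwa [MvPolynomial.mem_homogeneousSubmodule, smul_eq_mul, mul_one] at this)
    (hcoe j t ht)
  have hy' : y ∈ homogeneousSubmodule (Fin (n + 1)) R (m j t • 1) := by
    rwa [MvPolynomial.mem_homogeneousSubmodule, smul_eq_mul, mul_one]
  have h2 : ((prP R.subtype n).appLE (DP R n j) (DP k n j) (prP_pre R.subtype n j).ge).hom
      (secG (homogeneousSubmodule (Fin (n + 1)) R) (MvPolynomial.X j) (X_mem R n j)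
        (m j t) y hy') = t := by
    refine (appLE_secG (gmap R.subtype n) (gmap_irr R.subtype n) (MvPolynomial.X j)
      (X_mem R n j) (MvPolynomial.X j) (X_mem k n j) (gmap_X R.subtype n j)
      (prP_pre R.subtype n j).ge (m j t) y hy' (x j t) (hx j t) hyx).trans ?_
    exact (hsec j t).symm
  have h3 := (mem_map_iff (prP R.subtype n) i.ker ⟨DP R n j, DP_affine R n j⟩
    ⟨DP k n j, DP_affine k n j⟩ (prP_pre R.subtype n j)
    (secG (homogeneousSubmodule (Fin (n + 1)) R) (MvPolynomial.X j) (X_mem R n j)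
        (m j t) y hy')).2 (by
      rw [h2, ← hG j]
      exact Ideal.subset_span ht)
  have h4 := Scheme.IdealSheafData.le_map_comap (i.ker.map (prP R.subtype n))
    (prP R.subtype n) ⟨DP R n j, DP_affine R n j⟩ h3
  have h5 := (mem_map_iff (prP R.subtype n) _ ⟨DP R n j, DP_affine R n j⟩
    ⟨DP k n j, DP_affine k n j⟩ (prP_pre R.subtype n j) _).1 h4
  rwa [h2] at h5

end

end Pool.Agent.Ell.H46
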