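import Pool.Agent.Lib.MP_c7af3c_ag.ELL.H46.Mul

/-!
# MP_c7af3c_ag, project ELL, module TAU
-/

set_option autoImplicit false

namespace Pool.Agent.Ell.H46

open AlgebraicGeometry CategoryTheory CategoryTheory.Limits MonoidalCategory
  CartesianMonoidalCategory MonObj

theorem some_eq_aff {k : Type} [Field k] (a b : k) (h : (W k).Nonsingular a b) :
    (.some a b h : (W k).Point) = aff a b := by
  unfold aff
  rw [dif_pos h]

theorem onC_of {k : Type} [Field k] {a b : k} (h : (W k).Nonsingular a b) : OnC a b := by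
  have := h.1
  rw [WeierstrassCurve.Affine.equation_iff] at this
  unfold OnC
  linear_combination this

theorem exists_aff {k : Type} [Field k] (P : (W k).Point) (h : P ≠ 0) :
    ∃ (a b : k) (_ : OnC a b), P = aff a b := by
  rcases P with _ | ⟨a, b, h'⟩
  · exact absurd rfl h
  · exact ⟨a, b, onC_of h', some_eq_aff a b h'⟩

section

variable {k : Type} [Field k] [CharZero k] [DecidableEq k]

omit [DecidableEq k] in
theorem T_ne (hAff : AffStatement) : (aff 0 0 : (W k).Point) ≠ 0 := by
  obtain ⟨h1, e1⟩ := hAff k 0 0 (by simp [OnC])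
  rw [e1]
  exact WeierstrassCurve.Affine.Point.some_ne_zero h1

omit [DecidableEq k] in
theorem neg_T (hAff : AffStatement) : -(aff 0 0 : (W k).Point) = aff 0 0 := by
  obtain ⟨h1, e1⟩ := hAff k 0 0 (by simp [OnC])
  rw [e1, WeierstrassCurve.Affine.Point.neg_some]
  simp only [WeierstrassCurve.Affine.Point.some.injEq, true_and]
  simp [WeierstrassCurve.Affine.negY]

theorem T_T (hAff : AffStatement) : (aff 0 0 + aff 0 0 : (W k).Point) = 0 := by
  conv_lhs =>
    enter [2]
    rw [← neg_T hAff]
  exact add_neg_cancel _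

/-- the swap -/
noncomputable def swE (k : Type) [Field k] : El k ⟶ El k :=
  pushout.desc (j1 k) (j0 k) (glue' k)

theorem j0_swE (k : Type) [Field k] : j0 k ≫ swE k = j1 k := pushout.inl_desc _ _ _

theorem j1_swE (k : Type) [Field k] : j1 k ≫ swE k = j0 k := pushout.inr_desc _ _ _

theorem El_ext (k : Type) [Field k] {Y : Scheme} {f g : El k ⟶ Y} (h0 : j0 k ≫ f = j0 k ≫ g)
    (h1 : j1 k ≫ f = j1 k ≫ g) : f = g := pushout.hom_ext h0 h1

theorem swE_sE (k : Type) [Field k] : swE k ≫ sE k = sE k := by
  apply El_ext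
  · rw [← Category.assoc, j0_swE, j1_sE, j0_sE]
  · rw [← Category.assoc, j1_swE, j1_sE, j0_sE]

/-- the swap over `k` -/
noncomputable def sw (k : Type) [Field k] : EE k ⟶ EE k := Over.homMk (swE k) (swE_sE k)

theorem J0_sw (k : Type) [Field k] : J0 k ≫ sw k = J1 k := by
  apply Over.OverMorphism.ext
  exact j0_swE k

theorem J1_sw (k : Type) [Field k] : J1 k ≫ sw k = J0 k := by
  apply Over.OverMorphism.ext
  exact j1_swE k

theorem ptE_sw (hPts : PtsStatement) (P : (W k).Point) :
    ptE P ≫ sw k = ptE (P + aff 0 0) := by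
  obtain ⟨-, hJ0, hJ1⟩ := hPts k
  by_cases hP : P = 0
  · subst hP
    rw [zero_add, ← hJ0 0 0 (by simp [OnC]), ← J1_sw, ← Category.assoc]
    rfl
  · obtain ⟨a, b, h, rfl⟩ := exists_aff P hP
    rw [← hJ0 a b h, ← hJ1 a b h, Category.assoc, J0_sw]

end

theorem tau (hAff : AffStatement) (hI : InteStatement) (hP : PropStatement)
    (hMor : MorStatement) (hPtc : PtcStatement) (hPts : PtsStatement)
    (hMulc : MulcStatement) : TauStatement := by
  intro k _ _ _ _ R
  by_cases hR0 : R = 0
  · subst hR0
    exact ⟨𝟙 _, fun P => by rw [Category.comp_id, add_zero]⟩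
  by_cases hRT : R = aff 0 0
  · subst hRT
    exact ⟨sw k, ptE_sw hPts⟩
  obtain ⟨a₀, b₀, h₀, hR⟩ := exists_aff R hR0
  obtain ⟨hbij, hJ0, hJ1⟩ := hPts k
  obtain ⟨U, u, f, hu, hval, hcov⟩ := hMulc k
  have hint := (hI k).1
  have hlft : LocallyOfFiniteType (EE k).hom := (hI k).2.1
  have hprop : IsProper (EE k).hom := hP k
  have hsep : IsSeparated (EE k).hom := inferInstance
  have hredE : IsReduced (EE k).left := inferInstanceAs (IsReduced (El k))
  -- the group element of a point
  let G : (PT k ⟶ EE k) → (W k).Point := Function.surjInv hbij.2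
  have hG1 : ∀ p, ptE (G p) = p := Function.surjInv_eq hbij.2
  have hG2 : ∀ P, G (ptE P) = P := fun P => hbij.1 (hG1 _)
  -- the map `P ↦ (P, R)`
  let cst : CC k ⟶ PT k := Over.homMk (CC k).hom (Category.comp_id _)
  have hcst : ∀ q : PT k ⟶ CC k, q ≫ cst = 𝟙 _ := by
    intro q
    apply Over.OverMorphism.ext
    exact Over.w q
  let s : CC k ⟶ CC k ⊗ CC k := lift (𝟙 _) (cst ≫ ptC a₀ b₀ h₀)
  -- the pieces
  let Z : Fin 2 → Over (Spec (CommRingCat.of k)) := fun i =>
    Over.mk (pullback.snd (u i).left s.left ≫ (CC k).hom)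
  let zC : ∀ i, Z i ⟶ CC k := fun i => Over.homMk (pullback.snd (u i).left s.left) rfl
  let zU : ∀ i, Z i ⟶ U i := fun i => Over.homMk (pullback.fst (u i).left s.left) (by
    change pullback.fst (u i).left s.left ≫ (U i).hom =
      pullback.snd (u i).left s.left ≫ (CC k).hom
    rw [← Over.w (u i), ← Over.w s, ← Category.assoc, ← Category.assoc, pullback.condition])
  have hz : ∀ i, zU i ≫ u i = zC i ≫ s := by
    intro i
    apply Over.OverMorphism.ext
    exact pullback.condition
  have hzo : ∀ i, IsOpenImmersion (zC i).left := by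
    intro i
    have := hu i
    exact inferInstanceAs (IsOpenImmersion (pullback.snd (u i).left s.left))
  have hzlift : ∀ i (q : PT k ⟶ U i) (r : PT k ⟶ CC k), q ≫ u i = r ≫ s →
      ∃ z : PT k ⟶ Z i, z ≫ zC i = r := by
    intro i q r hqr
    have h1 : q.left ≫ (u i).left = r.left ≫ s.left := congrArg (fun f => f.left) hqr
    refine ⟨Over.homMk (pullback.lift q.left r.left h1) ?_, ?_⟩
    · change pullback.lift q.left r.left h1 ≫ pullback.snd (u i).left s.left ≫ (CC k).hom = _
      rw [pullback.lift_snd_assoc, Over.w r]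
    · apply Over.OverMorphism.ext
      exact pullback.lift_snd _ _ _
  let J : Bool → (CC k ⟶ EE k) := fun c => if c then J1 k else J0 k
  have hJo : ∀ c, IsOpenImmersion (J c).left := by
    intro c
    cases c
    · exact inferInstanceAs (IsOpenImmersion (J0 k).left)
    · exact inferInstanceAs (IsOpenImmersion (J1 k).left)
  have hmor := hMor k (EE k) (EE k) (Fin 2 × Bool) (fun i => Z i.1)
    (fun i => zC i.1 ≫ J i.2)
    (fun i => by
      have h1 := hzo i.1
      have h2 := hJo i.2
      change IsOpenImmersion ((zC i.1).left ≫ (J i.2).left)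
      infer_instance)
    (fun i => zU i.1 ≫ f i.1 ≫ J i.2)
    (by
      intro p
      have hs : ∀ a b h, ptC (k := k) a b h ≫ s = lift (ptC a b h) (ptC a₀ b₀ h₀) := by
        intro a b h
        apply CartesianMonoidalCategory.hom_ext
        · simp [s]
        · simp only [s, Category.assoc, lift_snd]
          rw [← Category.assoc, hcst, Category.id_comp]
      have key : ∀ P : (W k).Point, P ≠ 0 → P + R ≠ 0 →
          ∃ (a b : k) (h : OnC a b) (i : Fin 2) (z : PT k ⟶ Z i), P = aff a b ∧
            z ≫ zC i = ptC a b h := by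
        intro P hP0 hPR
        obtain ⟨a, b, h, rfl⟩ := exists_aff P hP0
        rw [hR] at hPR
        obtain ⟨i, q, hq⟩ := hcov a b h a₀ b₀ h₀ hPR
        obtain ⟨z, hz'⟩ := hzlift i q (ptC a b h) (by rw [hq, hs])
        exact ⟨a, b, h, i, z, rfl, hz'⟩
      by_cases hP : G p ≠ 0 ∧ G p + R ≠ 0
      · obtain ⟨a, b, h, i, z, h1, h2⟩ := key (G p) hP.1 hP.2
        refine ⟨(i, false), z, ?_⟩
        change z ≫ zC i ≫ J0 k = p
        rw [← Category.assoc, h2, hJ0, ← h1, hG1]
      · have hT0 := T_ne (k := k) hAff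
        have hTT := T_T (k := k) hAff
        have hneg := neg_T (k := k) hAff
        have h3 : G p + aff 0 0 ≠ 0 ∧ G p + aff 0 0 + R ≠ 0 := by
          rw [not_and_or, not_ne_iff, not_ne_iff] at hP
          constructor
          · intro h4
            have h5 : G p = aff 0 0 := by
              rw [← hneg]
              exact eq_neg_of_add_eq_zero_left h4
            rcases hP with h6 | h6
            · exact hT0 (h5.symm.trans h6)
            · rw [h5] at h6
              apply hRT
              have := eq_neg_of_add_eq_zero_right h6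
              rw [this, hneg]
          · intro h4
            rcases hP with h6 | h6
            · rw [h6, zero_add] at h4
              apply hRT
              have := eq_neg_of_add_eq_zero_right h4
              rw [this, hneg]
            · rw [add_right_comm, h6, zero_add] at h4
              exact hT0 h4
        obtain ⟨a, b, h, i, z, h1, h2⟩ := key (G p + aff 0 0) h3.1 h3.2
        refine ⟨(i, true), z, ?_⟩
        change z ≫ zC i ≫ J1 k = p
        rw [← Category.assoc, h2, hJ1, ← h1, add_assoc, hTT, add_zero, hG1])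
    (fun p => ptE (G p + R))
    (by
      rintro ⟨i, c⟩ q
      obtain ⟨a, b, h, h1⟩ := hPtc k (q ≫ zC i)
      have h2 : (q ≫ zU i) ≫ u i ≫ fst _ _ = ptC a b h := by
        rw [← h1]
        have : (q ≫ zU i) ≫ u i ≫ fst _ _ = q ≫ (zU i ≫ u i) ≫ fst _ _ := by
          simp only [Category.assoc]
        rw [this, hz]
        simp [s]
      have h3 : (q ≫ zU i) ≫ u i ≫ snd _ _ = ptC a₀ b₀ h₀ := by
        have : (q ≫ zU i) ≫ u i ≫ snd _ _ = q ≫ (zU i ≫ u i) ≫ snd _ _ := by
          simp only [Category.assoc]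
        rw [this, hz]
        simp only [s, Category.assoc, lift_snd]
        have : q ≫ zC i ≫ cst ≫ ptC a₀ b₀ h₀ = ((q ≫ zC i) ≫ cst) ≫ ptC a₀ b₀ h₀ := by
          simp only [Category.assoc]
        rw [this, hcst, Category.id_comp]
      obtain ⟨e, g, h'', h4, h5⟩ := hval i (q ≫ zU i) a b h a₀ b₀ h₀ h2 h3
      rw [← hR] at h5
      cases c
      · change q ≫ zU i ≫ f i ≫ J0 k = ptE (G (q ≫ zC i ≫ J0 k) + R)
        rw [← Category.assoc, ← Category.assoc, h4, hJ0, ← Category.assoc, h1, hJ0, hG2, h5]
      · change q ≫ zU i ≫ f i ≫ J1 k = ptE (G (q ≫ zC i ≫ J1 k) + R)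
        rw [← Category.assoc, ← Category.assoc, h4, hJ1, ← Category.assoc, h1, hJ1, hG2, ← h5]
        congr 1
        exact add_right_comm _ _ _)
  obtain ⟨τ, hτ⟩ := hmor
  exact ⟨τ, fun P => by rw [hτ, hG2]⟩

end Pool.Agent.Ell.H46
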